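import Mathlib
import Pool.Agent.H33.Rez

set_option autoImplicit false

namespace Pool.Agent.Results.MP_5155e4_gt.LargeFirstCountable

/-- `Y` is a Lindelöf Σ-space: a continuous image of a closed subspace of `K × M` with `K` compact
Hausdorff and `M` separable metrizable. -/
def IsLindelofSigma (Y : Type) [TopologicalSpace Y] : Prop :=
  ∃ (K M : Type) (_ : TopologicalSpace K) (_ : TopologicalSpace M),
    CompactSpace K ∧ T2Space K ∧ TopologicalSpace.SeparableSpace M ∧
    TopologicalSpace.MetrizableSpace M ∧
    ∃ F : Set (K × M), IsClosed F ∧ ∃ φ : F → Y, Continuous φ ∧ Function.Surjective φ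

/-- There is a first countable Tychonoff space `X` (so all points are `Gδ`) of cardinality larger
than the continuum such that `C_p(X)` is a Lindelöf Σ-space. -/
theorem result :
    ∃ (X : Type) (_ : TopologicalSpace X), T35Space X ∧ FirstCountableTopology X ∧
      (∀ x : X, IsGδ ({x} : Set X)) ∧
      IsLindelofSigma {f : X → ℝ // Continuous f} ∧ Cardinal.continuum < Cardinal.mk X := by
  obtain ⟨X, _, _, _, h1, h2⟩ := Pool.Agent.H33.Rez.final
  exact ⟨X, inferInstance, inferInstance, inferInstance, fun x => IsGδ.singleton x, h1, h2⟩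

end Pool.Agent.Results.MP_5155e4_gt.LargeFirstCountable
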